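import Pool.Agent.H50.FpD
import Pool.Agent.H50.FpF

/-!
# MP_80c44a_an: Lipschitz free p-spaces over bounded complete discrete metric spaces have the
Schur p-property

Definitions are in `Pool/Agent/H50/FpDefs.lean`.  The proof is direct (no duality): multiplication
by bounded Lipschitz functions is bounded on the free p-space of a bounded metric space, and
multiplications by Lipschitz cutoffs with disjoint supports are jointly bounded into the `ℓ_p`-sum.
A bounded separated sequence whose parts far from every finite set were small would be totally
bounded, since in a complete discrete space totally bounded sets are finite; hence the sequence has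
parts far from every finite set, and a gliding hump argument gives the lower `ℓ_p` estimate.
-/

namespace Pool.Agent.Results.MP_80c44a_an.SchurProperty

open Pool.Agent.H50.FpDefs

universe u

/-- For `0 < p ≤ 1` and every bounded, complete, (topologically) discrete metric space `M` with base
point `o`, the Lipschitz free `p`-space over `M` exists and has the Schur `p`-property. -/
theorem result (p : ℝ) (hp0 : 0 < p) (hp1 : p ≤ 1) (M : Type u) [MetricSpace M] [CompleteSpace M]
    [DiscreteTopology M] (hM : ∃ D : ℝ, ∀ x y : M, dist x y ≤ D) (o : M) :
    (∃ (X : Type u) (_ : AddCommGroup X) (_ : Module ℝ X) (N : X → ℝ) (δ : M → X),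
      IsFreePSpace p o N δ) ∧
    ∀ (X : Type u) [AddCommGroup X] [Module ℝ X] (N : X → ℝ) (δ : M → X),
      IsFreePSpace p o N δ → SchurP p N := by
  obtain ⟨D, hD⟩ := hM
  exact ⟨Pool.Agent.H50.FpF.exists_free hp0 hp1 o,
    fun X _ _ N δ h => Pool.Agent.H50.FpD.schur hp0 D hD h⟩

end Pool.Agent.Results.MP_80c44a_an.SchurProperty
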